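import Pool.Agent.MWK.Stmts

/-!
# Squad MWK, row CHA: the fully invariant congruences above `K` form a chain
-/

set_option autoImplicit false

namespace Pool.Agent.MWK.H62

open Pool.Agent.Helper14_MV Pool.Agent.Helper2_MV

theorem agl_j (hLvm : LvmStmt) {m : ℕ} {u v : List ℕ} {j j' : ℕ} (h : AgL m j u v)
    (hj : j' ≤ j) : AgL m j' u v := by
  obtain ⟨d, rfl⟩ := Nat.exists_eq_add_of_le hj
  clear hj
  induction d with
  | zero => exact h
  | succ d ih => exact ih ((hLvm m u v).1 _ h)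

theorem agl_zero (hLvm : LvmStmt) {m m' : ℕ} {u v : List ℕ} (h : AgL m 0 u v)
    (hm : m' ≤ m) : AgL m' 0 u v := by
  obtain ⟨d, rfl⟩ := Nat.exists_eq_add_of_le hm
  clear hm
  induction d with
  | zero => exact h
  | succ d ih => exact ih (agl_j hLvm ((hLvm _ u v).2 h) (Nat.zero_le _))

theorem agl_mono (hLvm : LvmStmt) {m m' j j' : ℕ} {u v : List ℕ} (h : AgL m j u v)
    (hj : (m' < m ∧ j' ≤ m' + 2) ∨ (m' = m ∧ j' ≤ j)) : AgL m' j' u v := by
  rcases hj with ⟨h1, h2⟩ | ⟨h1, h2⟩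
  · have h3 : AgL (m' + 1) 0 u v := agl_zero hLvm (agl_j hLvm h (Nat.zero_le _)) h1
    exact agl_j hLvm ((hLvm m' u v).2 h3) h2
  · subst h1
    exact agl_j hLvm h h2

/-- the level of a pair -/
theorem level (hLvs : LvsStmt) (θ : FIC) (hθ : Kc θ) (u v : List ℕ)
    (huv : RR θ u v) (h0 : AgL 0 0 u v) (hn : ¬ ∀ m, AgL m 0 u v) :
    ∃ m j, j ≤ m + 2 ∧ AgL m j u v ∧ BtL m j θ := by
  classical
  push Not at hn
  have hm0 : Nat.find hn ≠ 0 := by
    intro h
    apply Nat.find_spec hn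
    rw [h]
    exact h0
  obtain ⟨m, hm⟩ := Nat.exists_eq_succ_of_ne_zero hm0
  have h1 : ¬ AgL (m + 1) 0 u v := by
    have := Nat.find_spec hn
    rwa [hm] at this
  have h2 : AgL m 0 u v := by
    by_contra hc
    have := Nat.find_min' hn hc
    omega
  by_cases h3 : AgL m (m + 2) u v
  · exact ⟨m, m + 2, le_refl _, h3, (hLvs θ hθ m u v huv).2 h3 h1⟩
  · -- the first failure
    have hex : ∃ j, ¬ AgL m j u v := ⟨m + 2, h3⟩
    have hj0 : Nat.find hex ≠ 0 := by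
      intro h
      apply Nat.find_spec hex
      rw [h]
      exact h2
    obtain ⟨j, hj⟩ := Nat.exists_eq_succ_of_ne_zero hj0
    have h4 : ¬ AgL m (j + 1) u v := by
      have := Nat.find_spec hex
      rwa [hj] at this
    have h5 : AgL m j u v := by
      by_contra hc
      have := Nat.find_min' hex hc
      omega
    have h6 : j + 1 ≤ m + 2 := by
      have := Nat.find_min' hex h3
      omega
    exact ⟨m, j, by omega, h5, (hLvs θ hθ m u v huv).1 j (by omega) h5 h4⟩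

theorem content (hDg1 : Dg1Stmt) (θ : FIC) (hθ : Kc θ) (u v w w' : List ℕ) (huv : RR θ u v)
    (hn : ¬ RR θ w w') : ∀ x, x ∈ u ↔ x ∈ v := by
  intro x
  constructor
  · intro h
    by_contra hc
    exact hn (hDg1 θ hθ u v x huv h hc w w')
  · intro h
    by_contra hc
    exact hn (hDg1 θ hθ v u x (RR.symm huv) h hc w w')

theorem start (hDg2 : Dg2Stmt) (θ : FIC) (hθ : Kc θ) (u v w w' : List ℕ)
    (huv : RR θ u v) (hc : ∀ x, x ∈ u ↔ x ∈ v) (hcw : ∀ x, x ∈ w ↔ x ∈ w')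
    (hn : ¬ RR θ w w') : AgL 0 0 u v := by
  have h1 : ∀ x, u.count x = 1 → ¬ 2 ≤ v.count x := fun x h h' =>
    hn (hDg2 θ hθ u v x huv h h' w w' hcw)
  have h2 : ∀ x, v.count x = 1 → ¬ 2 ≤ u.count x := fun x h h' =>
    hn (hDg2 θ hθ v u x (RR.symm huv) h h' w w' hcw)
  have h3 : ∀ x, 1 ≤ u.count x ↔ 1 ≤ v.count x := by
    intro x
    have e1 : 1 ≤ u.count x ↔ x ∈ u := List.one_le_count_iff
    have e2 : 1 ≤ v.count x ↔ x ∈ v := List.one_le_count_iff
    rw [e1, e2]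
    exact hc x
  refine ⟨?_, ?_⟩
  · intro x i hi
    have a1 := h1 x
    have a2 := h2 x
    have a3 := h3 x
    have hi' : i = 0 ∨ i = 1 := by omega
    rcases hi' with rfl | rfl
    · exact a3
    · constructor
      · intro h
        by_contra hcon
        have : v.count x = 1 := by
          have := a3.1 (by omega)
          omega
        exact a2 this h
      · intro h
        by_contra hcon
        have : u.count x = 1 := by
          have := a3.2 (by omega)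
          omega
        exact a1 this h
  · intro y x i _ hF
    exact absurd hF (fun h => h)

theorem pair (θ₁ θ₂ : FIC) (h : ¬ θ₁ ≤ θ₂) : ∃ u v : List ℕ, RR θ₁ u v ∧ ¬ RR θ₂ u v := by
  by_contra hc
  push Not at hc
  apply h
  intro a b hab
  have h1 := hc a.toList b.toList (by
    show θ₁.r (FreeMonoid.ofList a.toList) (FreeMonoid.ofList b.toList)
    rw [FreeMonoid.ofList_toList, FreeMonoid.ofList_toList]
    exact hab)
  have h2 : θ₂.r (FreeMonoid.ofList a.toList) (FreeMonoid.ofList b.toList) := h1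
  rwa [FreeMonoid.ofList_toList, FreeMonoid.ofList_toList] at h2

theorem cha (hLvm : LvmStmt) (hLvs : LvsStmt) (hLvd : LvdStmt) (hLim : LimStmt)
    (hDg1 : Dg1Stmt) (hDg2 : Dg2Stmt) : ChaStmt := by
  intro θ₁ θ₂ hK1 hK2
  by_contra hcon
  push Not at hcon
  obtain ⟨u1, v1, h1, n1⟩ := pair θ₁ θ₂ hcon.1
  obtain ⟨u2, v2, h2, n2⟩ := pair θ₂ θ₁ hcon.2
  have c1 := content hDg1 θ₁ hK1 u1 v1 u2 v2 h1 n2
  have c2 := content hDg1 θ₂ hK2 u2 v2 u1 v1 h2 n1
  have a1 := start hDg2 θ₁ hK1 u1 v1 u2 v2 h1 c1 c2 n2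
  have a2 := start hDg2 θ₂ hK2 u2 v2 u1 v1 h2 c2 c1 n1
  obtain ⟨m1, j1, hj1, g1, b1⟩ := level hLvs θ₁ hK1 u1 v1 h1 a1
    (fun h => n1 (hLim θ₂ hK2 u1 v1 h))
  obtain ⟨m2, j2, hj2, g2, b2⟩ := level hLvs θ₂ hK2 u2 v2 h2 a2
    (fun h => n2 (hLim θ₁ hK1 u2 v2 h))
  by_cases hlt : m1 < m2 ∨ (m1 = m2 ∧ j1 ≤ j2)
  · apply n2
    refine hLvd θ₁ hK1 m1 u2 v2 j1 hj1 b1 (agl_mono hLvm g2 ?_)
    rcases hlt with h | h
    · exact Or.inl ⟨h, hj1⟩
    · exact Or.inr h
  · apply n1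
    refine hLvd θ₂ hK2 m2 u1 v1 j2 hj2 b2 (agl_mono hLvm g1 ?_)
    by_cases h : m2 < m1
    · exact Or.inl ⟨h, hj2⟩
    · refine Or.inr ⟨?_, ?_⟩
      · by_contra hne
        exact hlt (Or.inl (by omega))
      · by_contra hne
        have : m1 = m2 := by
          by_contra hne2
          exact hlt (Or.inl (by omega))
        exact hlt (Or.inr ⟨this, by omega⟩)

end Pool.Agent.MWK.H62
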